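import Pool.Agent.W811.Stu.Stmts

set_option autoImplicit false

open Polynomial Filter Set
open scoped Topology

namespace Pool.Agent.W174.Stu

open Pool.Agent.W811.Stu

/-- Laguerre inequality for products of linear factors -/
theorem laguerre_prod (a : ℝ) (s : Multiset ℝ) (x : ℝ) :
    0 ≤ ((C a * (s.map (fun r => X - C r)).prod).derivative.eval x) ^ 2 -
      (C a * (s.map (fun r => X - C r)).prod).eval x *
        (C a * (s.map (fun r => X - C r)).prod).derivative.derivative.eval x := by
  induction s using Multiset.induction_on with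
  | empty => simp
  | cons r s ih =>
    rw [Multiset.map_cons, Multiset.prod_cons]
    set h := C a * (s.map (fun r => X - C r)).prod with hh
    have e : C a * ((X - C r) * (s.map (fun r => X - C r)).prod) = (X - C r) * h := by
      rw [hh]; ring
    rw [e]
    simp only [derivative_mul, derivative_sub, derivative_X, derivative_C, sub_zero, one_mul,
      derivative_add, eval_add, eval_mul, eval_sub, eval_X, eval_C]
    nlinarith [sq_nonneg (h.eval x), mul_nonneg (sq_nonneg (x - r)) ih]

theorem laguerre_splits {g : ℝ[X]} (hg : g.Splits) (x : ℝ) :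
    0 ≤ (g.derivative.eval x) ^ 2 - g.eval x * g.derivative.derivative.eval x := by
  have := laguerre_prod g.leadingCoeff g.roots x
  rwa [← hg.eq_prod_roots] at this

theorem exists_large {F : ℝ[X]} (hF : 1 ≤ F.natDegree) (c E : ℝ) :
    (∃ x, E ≤ x ∧ c ≤ |F.eval x|) ∧ (∃ x, x ≤ E ∧ c ≤ |F.eval x|) := by
  have hd : 0 < F.degree := natDegree_pos_iff_degree_pos.1 (by omega)
  constructor
  · have h : Tendsto (fun x => |F.eval x|) atTop atTop := F.abs_tendsto_atTop hd
    obtain ⟨x, h1, h2⟩ := ((h.eventually_ge_atTop c).and (eventually_ge_atTop E)).exists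
    exact ⟨x, h2, h1⟩
  · have hd' : 0 < (F.comp (-X)).degree := by
      apply natDegree_pos_iff_degree_pos.1
      rw [natDegree_comp, natDegree_neg, natDegree_X]
      omega
    have h : Tendsto (fun x => |(F.comp (-X)).eval x|) atTop atTop :=
      (F.comp (-X)).abs_tendsto_atTop hd'
    obtain ⟨x, h1, h2⟩ := ((h.eventually_ge_atTop c).and (eventually_ge_atTop (-E))).exists
    refine ⟨-x, by linarith, ?_⟩
    simpa using h1

/-- the band around a point -/
theorem band {F : ℝ[X]} {c : ℝ} (hF : 1 ≤ F.natDegree)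
    (hc : ∀ E : ℝ, |F.eval E| < c → F.derivative.eval E ≠ 0) {E : ℝ} (hE : |F.eval E| < c) :
    ∃ u v : ℝ, u < E ∧ E < v ∧ (∀ x ∈ Ioo u v, |F.eval x| < c) ∧
      ((F.eval u = -c ∧ F.eval v = c ∧ StrictMonoOn (fun x => F.eval x) (Icc u v)) ∨
       (F.eval u = c ∧ F.eval v = -c ∧ StrictAntiOn (fun x => F.eval x) (Icc u v))) := by
  have hcont : Continuous fun x => |F.eval x| := F.continuous.abs
  obtain ⟨⟨b, hb, hb'⟩, ⟨a, ha, ha'⟩⟩ := exists_large hF c E
  -- right end
  let R : Set ℝ := {x | c ≤ |F.eval x|} ∩ Ici E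
  have hRc : IsClosed R := (isClosed_le continuous_const hcont).inter isClosed_Ici
  have hRn : R.Nonempty := ⟨b, hb', hb⟩
  have hRb : BddBelow R := ⟨E, fun x hx => hx.2⟩
  have hv := hRc.csInf_mem hRn hRb
  set v := sInf R with hvdef
  have hEv : E < v := lt_of_le_of_ne hv.2 (by
    rintro h
    have := hv.1
    rw [← h] at this
    exact absurd hE (not_lt.2 this))
  have hR : ∀ x, E ≤ x → x < v → |F.eval x| < c := by
    intro x h1 h2
    by_contra h
    exact absurd (csInf_le hRb ⟨not_lt.1 h, h1⟩) (not_le.2 h2)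
  -- left end
  let L : Set ℝ := {x | c ≤ |F.eval x|} ∩ Iic E
  have hLc : IsClosed L := (isClosed_le continuous_const hcont).inter isClosed_Iic
  have hLn : L.Nonempty := ⟨a, ha', ha⟩
  have hLb : BddAbove L := ⟨E, fun x hx => hx.2⟩
  have hu := hLc.csSup_mem hLn hLb
  set u := sSup L with hudef
  have huE : u < E := lt_of_le_of_ne hu.2 (by
    rintro h
    have := hu.1
    rw [h] at this
    exact absurd hE (not_lt.2 this))
  have hL : ∀ x, x ≤ E → u < x → |F.eval x| < c := by
    intro x h1 h2
    by_contra h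
    exact absurd (le_csSup hLb ⟨not_lt.1 h, h1⟩) (not_le.2 h2)
  have hin : ∀ x ∈ Ioo u v, |F.eval x| < c := by
    rintro x ⟨h1, h2⟩
    rcases le_total x E with h | h
    · exact hL x h h1
    · exact hR x h h2
  have huv : u < v := huE.trans hEv
  have hclos : ∀ x ∈ Icc u v, |F.eval x| ≤ c := by
    intro x hx
    rw [← closure_Ioo huv.ne] at hx
    have : closure (Ioo u v) ⊆ {x | |F.eval x| ≤ c} :=
      closure_minimal (fun y hy => (hin y hy).le) (isClosed_le hcont continuous_const)
    exact this hx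
  have hu1 : |F.eval u| = c := le_antisymm (hclos u ⟨le_rfl, huv.le⟩) hu.1
  have hv1 : |F.eval v| = c := le_antisymm (hclos v ⟨huv.le, le_rfl⟩) hv.1
  refine ⟨u, v, huE, hEv, hin, ?_⟩
  -- sign of the derivative
  have hne : ∀ x ∈ Ioo u v, F.derivative.eval x ≠ 0 := fun x hx => hc x (hin x hx)
  have hcF : ContinuousOn (fun x => F.eval x) (Icc u v) := F.continuous.continuousOn
  have hsgn : (∀ x ∈ Ioo u v, 0 < F.derivative.eval x) ∨ (∀ x ∈ Ioo u v, F.derivative.eval x < 0) := by
    rcases lt_or_gt_of_ne (hne E ⟨huE, hEv⟩) with h | h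
    · right
      intro x hx
      by_contra hh
      have hpos : 0 ≤ F.derivative.eval x := not_lt.1 hh
      obtain ⟨y, hy1, hy2⟩ := isPreconnected_Ioo.intermediate_value (a := E) (b := x)
        ⟨huE, hEv⟩ hx (f := fun x => F.derivative.eval x) F.derivative.continuous.continuousOn
        ⟨h.le, hpos⟩
      exact hne y hy1 hy2
    · left
      intro x hx
      by_contra hh
      have hpos : F.derivative.eval x ≤ 0 := not_lt.1 hh
      obtain ⟨y, hy1, hy2⟩ := isPreconnected_Ioo.intermediate_value (a := x) (b := E)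
        hx ⟨huE, hEv⟩ (f := fun x => F.derivative.eval x) F.derivative.continuous.continuousOn
        ⟨hpos, h.le⟩
      exact hne y hy1 hy2
  rcases hsgn with h | h
  · left
    have hm : StrictMonoOn (fun x => F.eval x) (Icc u v) :=
      strictMonoOn_of_deriv_pos (convex_Icc u v) hcF (fun x hx => by
        rw [interior_Icc] at hx
        rw [F.deriv]
        exact h x hx)
    have hlt : F.eval u < F.eval v := hm ⟨le_rfl, huv.le⟩ ⟨huv.le, le_rfl⟩ huv
    rcases abs_eq_abs.1 (hu1.trans hv1.symm) with he | he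
    · exact absurd he hlt.ne
    · have : 0 < F.eval v := by linarith
      rw [abs_of_pos this] at hv1
      exact ⟨by linarith, hv1, hm⟩
  · right
    have hm : StrictAntiOn (fun x => F.eval x) (Icc u v) :=
      strictAntiOn_of_deriv_neg (convex_Icc u v) hcF (fun x hx => by
        rw [interior_Icc] at hx
        rw [F.deriv]
        exact h x hx)
    have hlt : F.eval v < F.eval u := hm ⟨le_rfl, huv.le⟩ ⟨huv.le, le_rfl⟩ huv
    rcases abs_eq_abs.1 (hu1.trans hv1.symm) with he | he
    · exact absurd he.symm hlt.ne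
    · have : 0 < F.eval u := by linarith
      rw [abs_of_pos this] at hu1
      exact ⟨hu1, by linarith, hm⟩

/-- the polynomials `F - v` split -/
theorem splits_sub {F : ℝ[X]} {c : ℝ} (h0 : 0 < c) (hF : 1 ≤ F.natDegree)
    (hr : ∀ w : ℂ, aeval w F = 0 → w.im = 0)
    (hc : ∀ E : ℝ, |F.eval E| < c → F.derivative.eval E ≠ 0) {t : ℝ} (ht : |t| < c) :
    (F - C t).Splits := by
  have hF0 : F ≠ 0 := by rintro rfl; simp at hF
  have hFs : F.Splits := by
    refine Splits.of_splits_map (algebraMap ℝ ℂ) (IsAlgClosed.splits _) ?_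
    intro w hw
    have hw' : aeval w F = 0 := by
      have := (mem_roots'.1 hw).2
      rwa [IsRoot.def, eval_map_algebraMap] at this
    refine ⟨w.re, ?_⟩
    apply Complex.ext
    · simp
    · simp [hr w hw']
  have hcard := hFs.natDegree_eq_card_roots
  -- simple roots
  have hnodup : F.roots.Nodup := by
    rw [Multiset.nodup_iff_count_le_one]
    intro r
    rw [count_roots]
    by_contra hh
    have h2 : 1 < F.rootMultiplicity r := by omega
    have := (one_lt_rootMultiplicity_iff_isRoot hF0).1 h2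
    exact hc r (by rw [this.1.eq_zero]; simpa using h0) this.2
  let Z := F.roots.toFinset
  have hZ : Z.card = F.natDegree := by
    rw [Multiset.toFinset_card_of_nodup hnodup, hcard]
  have hZr : ∀ r ∈ Z, F.eval r = 0 := by
    intro r hr'
    have := (mem_roots'.1 (Multiset.mem_toFinset.1 hr')).2
    exact this
  have hg : ∀ r : ℝ, ∃ x : ℝ, r ∈ Z → F.eval x = t ∧ ∀ y ∈ uIcc r x, |F.eval y| < c := by
    intro r
    by_cases hrZ : r ∈ Z
    · have hr0 := hZr r hrZ
      obtain ⟨u, v, h1, h2, h3, h4⟩ := band hF hc (E := r) (by rw [hr0]; simpa using h0)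
      have huv : u < v := h1.trans h2
      have ht1 := (abs_lt.1 ht)
      have : ∃ x ∈ Ioo u v, F.eval x = t := by
        rcases h4 with ⟨e1, e2, -⟩ | ⟨e1, e2, -⟩
        · have := intermediate_value_Ioo huv.le (f := fun x => F.eval x) F.continuous.continuousOn
          have hm : t ∈ Ioo (F.eval u) (F.eval v) := by rw [e1, e2]; exact ht1
          obtain ⟨x, hx, hx'⟩ := this hm
          exact ⟨x, hx, hx'⟩
        · have := intermediate_value_Ioo' huv.le (f := fun x => F.eval x) F.continuous.continuousOn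
          have hm : t ∈ Ioo (F.eval v) (F.eval u) := by rw [e1, e2]; exact ht1
          obtain ⟨x, hx, hx'⟩ := this hm
          exact ⟨x, hx, hx'⟩
      obtain ⟨x, hx, hx'⟩ := this
      refine ⟨x, fun _ => ⟨hx', fun y hy => h3 y ?_⟩⟩
      exact ordConnected_Ioo.uIcc_subset ⟨h1, h2⟩ hx hy
    · exact ⟨0, fun h => absurd h hrZ⟩
  choose g hg using hg
  have hinj : InjOn g Z := by
    intro r hr1 r' hr2 h
    by_contra hne
    wlog hlt : r < r' generalizing r r'
    · exact this hr2 hr1 h.symm (Ne.symm hne) (lt_of_le_of_ne (not_lt.1 hlt) (Ne.symm hne))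
    have hb : ∀ y ∈ Icc r r', |F.eval y| < c := by
      intro y hy
      rcases le_total y (g r) with h1 | h1
      · exact (hg r hr1).2 y (by rw [mem_uIcc]; left; exact ⟨hy.1, h1⟩)
      · refine (hg r' hr2).2 y ?_
        rw [mem_uIcc]; right
        rw [← h]; exact ⟨h1, hy.2⟩
    obtain ⟨y, hy, hy'⟩ := exists_deriv_eq_zero hlt (f := fun x => F.eval x)
      F.continuous.continuousOn (by rw [hZr r hr1, hZr r' hr2])
    rw [F.deriv] at hy'
    exact hc y (hb y ⟨hy.1.le, hy.2.le⟩) hy'
  have hFt : F - C t ≠ 0 := by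
    intro h
    have : F = C t := sub_eq_zero.1 h
    rw [this] at hF
    simp at hF
  have hdeg : (F - C t).natDegree = F.natDegree := natDegree_sub_C
  rw [splits_iff_card_roots, hdeg]
  apply le_antisymm
  · rw [← hdeg]; exact card_roots' _
  · calc F.natDegree = (Z.image g).card := by rw [Finset.card_image_of_injOn hinj, hZ]
      _ ≤ (F - C t).roots.toFinset.card := by
        apply Finset.card_le_card
        intro x hx
        obtain ⟨r, hr1, rfl⟩ := Finset.mem_image.1 hx
        rw [Multiset.mem_toFinset, mem_roots hFt, IsRoot.def, eval_sub, eval_C, (hg r hr1).1,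
          sub_self]
      _ ≤ _ := Multiset.toFinset_card_le _

theorem tLag : TLag := by
  intro F c h0 hF hr hc
  constructor
  · intro E hE
    have key : ∀ t : ℝ, |t| < c → 0 ≤ (F.derivative.eval E) ^ 2 -
        (F.eval E - t) * F.derivative.derivative.eval E := by
      intro t ht
      have := laguerre_splits (splits_sub h0 hF hr hc ht) E
      simpa using this
    have key2 : ∀ t ∈ Icc (-c) c, 0 ≤ (F.derivative.eval E) ^ 2 -
        (F.eval E - t) * F.derivative.derivative.eval E := by
      intro t ht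
      rw [← closure_Ioo (by linarith : -c ≠ c)] at ht
      have : closure (Ioo (-c) c) ⊆ {t | 0 ≤ (F.derivative.eval E) ^ 2 -
          (F.eval E - t) * F.derivative.derivative.eval E} :=
        closure_minimal (fun y hy => key y (abs_lt.2 hy))
          (isClosed_le continuous_const (by fun_prop))
      exact this ht
    have k1 := key2 c ⟨by linarith, le_rfl⟩
    have k2 := key2 (-c) ⟨le_rfl, by linarith⟩
    have hE' := abs_le.1 hE.le
    rcases abs_cases (F.derivative.derivative.eval E) with ⟨e1, e2⟩ | ⟨e1, e2⟩ <;>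
    rcases abs_cases (F.eval E) with ⟨e3, e4⟩ | ⟨e3, e4⟩ <;> rw [e1, e3] <;> nlinarith
  · intro E κ hκ hκc hE
    obtain ⟨u0, v0, h1, h2, h3, h4⟩ := band hF hc (E := E) (lt_of_le_of_lt hE hκc)
    have huv : u0 < v0 := h1.trans h2
    have hE' := abs_le.1 hE
    have hEm : E ∈ Icc u0 v0 := ⟨h1.le, h2.le⟩
    rcases h4 with ⟨e1, e2, hm⟩ | ⟨e1, e2, hm⟩
    · have hiv := intermediate_value_Ioo huv.le (f := fun x => F.eval x) F.continuous.continuousOn
      rw [e1, e2] at hiv
      obtain ⟨u, hu, hu'⟩ := hiv (show -κ ∈ Ioo (-c) c from ⟨by linarith, by linarith⟩)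
      obtain ⟨v, hv, hv'⟩ := hiv (show κ ∈ Ioo (-c) c from ⟨by linarith, by linarith⟩)
      simp only at hu' hv'
      have hum := Ioo_subset_Icc_self hu
      have hvm := Ioo_subset_Icc_self hv
      refine ⟨u, v, ?_, ?_, ?_, ?_, Or.inl ⟨hu', hv'⟩⟩
      · rw [← hm.le_iff_le hum hEm]; rw [hu']; exact hE'.1
      · rw [← hm.le_iff_le hEm hvm]; rw [hv']; exact hE'.2
      · rw [← hm.lt_iff_lt hum hvm]; rw [hu', hv']; linarith
      · intro e he
        have hem : e ∈ Icc u0 v0 := ⟨hum.1.trans he.1, he.2.trans hvm.2⟩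
        rw [abs_le]
        constructor
        · have := (hm.le_iff_le hum hem).2 he.1
          rwa [hu'] at this
        · have := (hm.le_iff_le hem hvm).2 he.2
          rwa [hv'] at this
    · have hiv := intermediate_value_Ioo' huv.le (f := fun x => F.eval x) F.continuous.continuousOn
      rw [e1, e2] at hiv
      obtain ⟨u, hu, hu'⟩ := hiv (show κ ∈ Ioo (-c) c from ⟨by linarith, by linarith⟩)
      obtain ⟨v, hv, hv'⟩ := hiv (show -κ ∈ Ioo (-c) c from ⟨by linarith, by linarith⟩)
      simp only at hu' hv'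
      have hum := Ioo_subset_Icc_self hu
      have hvm := Ioo_subset_Icc_self hv
      refine ⟨u, v, ?_, ?_, ?_, ?_, Or.inr ⟨hu', hv'⟩⟩
      · rw [← hm.le_iff_ge hEm hum]; rw [hu']; exact hE'.2
      · rw [← hm.le_iff_ge hvm hEm]; rw [hv']; exact hE'.1
      · rw [← hm.lt_iff_gt hvm hum]; rw [hu', hv']; linarith
      · intro e he
        have hem : e ∈ Icc u0 v0 := ⟨hum.1.trans he.1, he.2.trans hvm.2⟩
        rw [abs_le]
        constructor
        · have := (hm.le_iff_ge hvm hem).2 he.2
          rwa [hv'] at this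
        · have := (hm.le_iff_ge hem hum).2 he.1
          rwa [hu'] at this

end Pool.Agent.W174.Stu
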