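import Pool.Agent.W174.Stu.Erg

set_option autoImplicit false

open Filter Set MeasureTheory Metric
open scoped Topology ENNReal

namespace Pool.Agent.W174.Stu

open Pool.Agent.W811.Stu

/-- the Gauss measure (not normalised) as a set function -/
noncomputable def gm (A : Set ℝ) : ℝ≥0∞ :=
  ∫⁻ x in A ∩ Ico 0 1, ENNReal.ofReal (1 / (1 + x))

theorem hasSum_tele {t : ℝ} (ht : 0 ≤ t) :
    HasSum (fun k : ℕ => 1 / (((k : ℝ) + 1 + t) * ((k : ℝ) + 1 + t + 1))) (1 / (1 + t)) := by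
  have hpos : ∀ k : ℕ, 0 < (k : ℝ) + 1 + t := fun k => by positivity
  rw [hasSum_iff_tendsto_nat_of_nonneg (fun k => by positivity)]
  have hsum : ∀ n : ℕ, ∑ k ∈ Finset.range n, 1 / (((k : ℝ) + 1 + t) * ((k : ℝ) + 1 + t + 1)) =
      1 / (1 + t) - 1 / ((n : ℝ) + 1 + t) := by
    intro n
    induction n with
    | zero => simp
    | succ n ih =>
      rw [Finset.sum_range_succ, ih]
      have h1 := hpos n
      push_cast
      field_simp
      ring
  simp_rw [hsum]
  have h : Tendsto (fun n : ℕ => 1 / ((n : ℝ) + 1 + t)) atTop (𝓝 0) := by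
    refine squeeze_zero (fun n => (by have := hpos n; positivity)) (fun n => ?_)
      tendsto_one_div_add_atTop_nhds_zero_nat
    exact one_div_le_one_div_of_le (by positivity) (by linarith)
  simpa using h.const_sub (1 / (1 + t))

theorem gm_gauss (A : Set ℝ) (hA : MeasurableSet A) : gm (gauss ⁻¹' A) ≤ gm A := by
  have hsub : gauss ⁻¹' A ∩ Ico 0 1 ⊆ {0} ∪ ⋃ k : ℕ, (fun t : ℝ => 1 / (((k : ℝ) + 1) + t)) ''
      (A ∩ Ico 0 1) := by
    rintro x ⟨hx, h0, h1⟩
    rcases h0.eq_or_lt with rfl | h0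
    · left; rfl
    · right
      obtain ⟨a1, a2⟩ := inv_eq_add ⟨h0, h1⟩
      rw [mem_iUnion]
      refine ⟨⌊x⁻¹⌋₊ - 1, gauss x, ⟨hx, Int.fract_nonneg _, Int.fract_lt_one _⟩, ?_⟩
      beta_reduce
      rw [show (((⌊x⁻¹⌋₊ - 1 : ℕ) : ℝ) + 1) = (⌊x⁻¹⌋₊ : ℝ) by
        rw [Nat.cast_sub a1]; push_cast; ring]
      exact a2.symm
  have hk : ∀ k : ℕ, ∫⁻ x in (fun t : ℝ => 1 / (((k : ℝ) + 1) + t)) '' (A ∩ Ico 0 1),
      ENNReal.ofReal (1 / (1 + x)) = ∫⁻ t in A ∩ Ico 0 1,
        ENNReal.ofReal (1 / (((k : ℝ) + 1 + t) * ((k : ℝ) + 1 + t + 1))) := by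
    intro k
    have hpos : ∀ t ∈ A ∩ Ico (0:ℝ) 1, 0 < (k : ℝ) + 1 + t := fun t ht => by
      have := ht.2.1
      positivity
    rw [lintegral_image_eq_lintegral_abs_deriv_mul (s := A ∩ Ico 0 1)
      (f' := fun t => -(1 : ℝ) / ((k : ℝ) + 1 + t) ^ 2) (hA.inter measurableSet_Ico)]
    · refine setLIntegral_congr_fun (hA.inter measurableSet_Ico) fun t ht => ?_
      have := hpos t ht
      beta_reduce
      rw [← ENNReal.ofReal_mul (abs_nonneg _), abs_div, abs_neg, abs_one,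
        abs_of_pos (by positivity)]
      congr 1
      field_simp
    · intro t ht
      have := hpos t ht
      have h1 : HasDerivAt (fun t : ℝ => ((k : ℝ) + 1) + t) 1 t := (hasDerivAt_id t).const_add _
      have h2 := h1.inv this.ne'
      simp only [one_div]
      exact h2.hasDerivWithinAt
    · intro s hs t ht hst
      have h1 := hpos s hs
      have h2 := hpos t ht
      simp only at hst
      rw [div_eq_div_iff h1.ne' h2.ne'] at hst
      linarith
  unfold gm
  calc ∫⁻ x in gauss ⁻¹' A ∩ Ico 0 1, ENNReal.ofReal (1 / (1 + x))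
      ≤ ∫⁻ x in {0} ∪ ⋃ k : ℕ, (fun t : ℝ => 1 / (((k : ℝ) + 1) + t)) '' (A ∩ Ico 0 1),
          ENNReal.ofReal (1 / (1 + x)) := lintegral_mono_set hsub
    _ ≤ (∫⁻ x in {(0:ℝ)}, ENNReal.ofReal (1 / (1 + x))) +
        ∫⁻ x in ⋃ k : ℕ, (fun t : ℝ => 1 / (((k : ℝ) + 1) + t)) '' (A ∩ Ico 0 1),
          ENNReal.ofReal (1 / (1 + x)) := lintegral_union_le _ _ _
    _ = ∫⁻ x in ⋃ k : ℕ, (fun t : ℝ => 1 / (((k : ℝ) + 1) + t)) '' (A ∩ Ico 0 1),
          ENNReal.ofReal (1 / (1 + x)) := by simp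
    _ ≤ ∑' k : ℕ, ∫⁻ x in (fun t : ℝ => 1 / (((k : ℝ) + 1) + t)) '' (A ∩ Ico 0 1),
          ENNReal.ofReal (1 / (1 + x)) := lintegral_iUnion_le _ _
    _ = ∑' k : ℕ, ∫⁻ t in A ∩ Ico 0 1,
        ENNReal.ofReal (1 / (((k : ℝ) + 1 + t) * ((k : ℝ) + 1 + t + 1))) := by
        simp_rw [hk]
    _ = ∫⁻ t in A ∩ Ico 0 1, ∑' k : ℕ,
        ENNReal.ofReal (1 / (((k : ℝ) + 1 + t) * ((k : ℝ) + 1 + t + 1))) := by
        rw [lintegral_tsum]
        intro k
        fun_prop
    _ = ∫⁻ t in A ∩ Ico 0 1, ENNReal.ofReal (1 / (1 + t)) := by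
        refine setLIntegral_congr_fun (hA.inter measurableSet_Ico) fun t ht => ?_
        have h0 := ht.2.1
        beta_reduce
        rw [← ENNReal.ofReal_tsum_of_nonneg (fun k => by positivity) (hasSum_tele h0).summable,
          (hasSum_tele h0).tsum_eq]

theorem gm_iter (A : Set ℝ) (hA : MeasurableSet A) (n : ℕ) : gm (gauss^[n] ⁻¹' A) ≤ gm A := by
  induction n with
  | zero => exact le_rfl
  | succ n ih =>
    rw [Function.iterate_succ, preimage_comp]
    exact (gm_gauss _ (measurable_gauss_iterate n hA)).trans ih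

theorem vol_iter (A : Set ℝ) (hA : MeasurableSet A) (n : ℕ) :
    volume (gauss^[n] ⁻¹' A ∩ Ioo 0 1) ≤ 2 * volume A := by
  have h1 : volume (gauss^[n] ⁻¹' A ∩ Ioo 0 1) ≤ 2 * gm (gauss^[n] ⁻¹' A) := by
    unfold gm
    rw [← lintegral_const_mul' _ _ (by simp), ← setLIntegral_one]
    calc ∫⁻ x in gauss^[n] ⁻¹' A ∩ Ioo 0 1, 1 ≤ ∫⁻ x in gauss^[n] ⁻¹' A ∩ Ico 0 1, 1 :=
          lintegral_mono_set (inter_subset_inter_right _ Ioo_subset_Ico_self)
      _ ≤ _ := by
        refine setLIntegral_mono' ((measurable_gauss_iterate n hA).inter measurableSet_Ico)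
          fun x hx => ?_
        have hx0 := hx.2.1
        have hx1 := hx.2.2
        have : (1:ℝ) ≤ 2 * (1 / (1 + x)) := by
          rw [mul_one_div, le_div_iff₀ (by positivity)]
          linarith
        calc (1 : ℝ≥0∞) = ENNReal.ofReal 1 := by simp
          _ ≤ ENNReal.ofReal (2 * (1 / (1 + x))) := ENNReal.ofReal_le_ofReal this
          _ = 2 * ENNReal.ofReal (1 / (1 + x)) := by
            rw [ENNReal.ofReal_mul (by norm_num)]; norm_num
  have h2 : gm A ≤ volume A := by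
    unfold gm
    calc ∫⁻ x in A ∩ Ico 0 1, ENNReal.ofReal (1 / (1 + x)) ≤ ∫⁻ x in A ∩ Ico 0 1, 1 := by
          refine setLIntegral_mono' (hA.inter measurableSet_Ico) fun x hx => ?_
          have hx0 := hx.2.1
          rw [ENNReal.ofReal_le_one, div_le_one (by positivity)]
          linarith
      _ = volume (A ∩ Ico 0 1) := by rw [setLIntegral_one]
      _ ≤ volume A := measure_mono inter_subset_left
  calc _ ≤ 2 * gm (gauss^[n] ⁻¹' A) := h1
    _ ≤ 2 * volume A := by gcongr; exact (gm_iter A hA n).trans h2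

theorem tDig : TDig := by
  have hs : ∑' n : ℕ, (volume.restrict (Ioo (0:ℝ) 1)) {α : ℝ | (n + 1) ^ 2 < dig α n} ≠ ∞ := by
    have hle : ∀ n : ℕ, (volume.restrict (Ioo (0:ℝ) 1)) {α : ℝ | (n + 1) ^ 2 < dig α n} ≤
        ENNReal.ofReal (2 * (1 / ((n : ℝ) + 1) ^ 2)) := by
      intro n
      rw [Measure.restrict_apply' measurableSet_Ioo]
      calc volume ({α : ℝ | (n + 1) ^ 2 < dig α n} ∩ Ioo 0 1)
          ≤ volume (gauss^[n] ⁻¹' (Icc 0 (1 / ((n : ℝ) + 1) ^ 2)) ∩ Ioo 0 1) := by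
            apply measure_mono
            rintro α ⟨h1, h2⟩
            refine ⟨?_, h2⟩
            have h1 : (n + 1) ^ 2 < ⌊(gauss^[n] α)⁻¹⌋₊ := h1
            have h3 : ((n : ℝ) + 1) ^ 2 < (gauss^[n] α)⁻¹ := by
              have := Nat.lt_of_lt_floor h1
              exact_mod_cast this
            have h4 : 0 < (gauss^[n] α)⁻¹ := lt_trans (by positivity) h3
            have h5 : 0 < gauss^[n] α := inv_pos.1 h4
            refine ⟨h5.le, ?_⟩
            rw [one_div]
            exact (le_inv_comm₀ h5 (by positivity)).2 h3.le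
        _ ≤ 2 * volume (Icc 0 (1 / ((n : ℝ) + 1) ^ 2)) := vol_iter _ measurableSet_Icc n
        _ = _ := by
          rw [Real.volume_Icc, sub_zero, ENNReal.ofReal_mul (by norm_num)]
          norm_num
    refine ne_top_of_le_ne_top ?_ (ENNReal.tsum_le_tsum hle)
    rw [← ENNReal.ofReal_tsum_of_nonneg (fun n => by positivity)]
    · exact ENNReal.ofReal_ne_top
    · apply Summable.mul_left
      have := (summable_nat_add_iff 1).2 (Real.summable_one_div_nat_pow.2 one_lt_two)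
      simpa using this
  have := ae_eventually_notMem hs
  unfold TDig
  filter_upwards [this] with α hα
  filter_upwards [hα] with n hn
  simpa using hn

end Pool.Agent.W174.Stu
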