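import Pool.Agent.W811.Stu.Stmts

set_option autoImplicit false

open Filter Set MeasureTheory Metric
open scoped Topology ENNReal

namespace Pool.Agent.W174.Stu

open Pool.Agent.W811.Stu

theorem measurable_gauss : Measurable gauss := measurable_inv.fract

theorem measurable_gauss_iterate (n : ℕ) : Measurable (gauss^[n]) := by
  induction n with
  | zero => exact measurable_id
  | succ n ih => rw [Function.iterate_succ']; exact measurable_gauss.comp ih

theorem gauss_branch {a : ℕ} (_ha : 1 ≤ a) {t : ℝ} (h0 : 0 ≤ t) (h1 : t < 1) :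
    gauss (1 / ((a : ℝ) + t)) = t := by
  unfold gauss
  rw [one_div, inv_inv, Int.fract_natCast_add, Int.fract_eq_self.2 ⟨h0, h1⟩]

theorem gauss_irr {x : ℝ} (hx : Irrational x) : Irrational (gauss x) := by
  unfold gauss Int.fract
  exact hx.inv.sub_intCast _

theorem gauss_mem {x : ℝ} (hx : Irrational x) : gauss x ∈ Ioo (0:ℝ) 1 := by
  refine ⟨lt_of_le_of_ne (Int.fract_nonneg _) ?_, Int.fract_lt_one _⟩
  intro h
  exact (gauss_irr hx).ne_zero h.symm

theorem iter_mem {x : ℝ} (hx : Irrational x) (h : x ∈ Ioo (0:ℝ) 1) (n : ℕ) :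
    Irrational (gauss^[n] x) ∧ gauss^[n] x ∈ Ioo (0:ℝ) 1 := by
  induction n with
  | zero => exact ⟨hx, h⟩
  | succ n ih =>
    rw [Function.iterate_succ', Function.comp_apply]
    exact ⟨gauss_irr ih.1, gauss_mem ih.1⟩

theorem inv_eq_add {x : ℝ} (hx : x ∈ Ioo (0:ℝ) 1) :
    1 ≤ ⌊x⁻¹⌋₊ ∧ x = 1 / ((⌊x⁻¹⌋₊ : ℝ) + gauss x) := by
  have h1 : 1 < x⁻¹ := (one_lt_inv₀ hx.1).2 hx.2
  refine ⟨Nat.le_floor (by simpa using h1.le), ?_⟩
  unfold gauss
  have h2 : ((⌊x⁻¹⌋₊ : ℕ) : ℝ) = (⌊x⁻¹⌋ : ℝ) := by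
    rw [natCast_floor_eq_intCast_floor (by positivity [hx.1])]
  rw [h2, Int.floor_add_fract, one_div, inv_inv]

/-- the branch of the inverse of `gauss^[n]` at `α` -/
theorem branch (α : ℝ) (hα : Irrational α) (h : α ∈ Ioo (0:ℝ) 1) (n : ℕ) :
    ∃ p p' q q' : ℝ, 1 ≤ q ∧ 0 ≤ q' ∧ q' ≤ q ∧ (n : ℝ) + 1 ≤ q + q' ∧
      |p * q' - p' * q| = 1 ∧
      (∀ t ∈ Ioo (0:ℝ) 1, gauss^[n] ((p + t * p') / (q + t * q')) = t) ∧
      (p + gauss^[n] α * p') / (q + gauss^[n] α * q') = α := by
  induction n with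
  | zero =>
    refine ⟨0, 1, 1, 0, le_rfl, le_rfl, zero_le_one, by simp, by simp, ?_, ?_⟩
    · intro t ht; simp
    · simp
  | succ n ih =>
    obtain ⟨p, p', q, q', h1, h2, h3, h4, h5, h6, h7⟩ := ih
    obtain ⟨i1, i2⟩ := iter_mem hα h n
    obtain ⟨j1, j2⟩ := inv_eq_add i2
    set a := ⌊(gauss^[n] α)⁻¹⌋₊ with ha
    have ja : (1:ℝ) ≤ a := by exact_mod_cast j1
    refine ⟨p * a + p', p, q * a + q', q, ?_, by linarith, ?_, ?_, ?_, ?_, ?_⟩
    · nlinarith
    · nlinarith
    · push_cast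
      nlinarith
    · rw [← h5, ← abs_neg]
      congr 1
      ring
    · intro t ht
      have hat : 0 < (a:ℝ) + t := by linarith [ht.1]
      have ht' : 1 / ((a:ℝ) + t) ∈ Ioo (0:ℝ) 1 := by
        refine ⟨by positivity, ?_⟩
        rw [div_lt_one hat]
        linarith [ht.1]
      have e := h6 _ ht'
      have hden : 0 < q + 1 / ((a:ℝ) + t) * q' := by positivity
      have hden2 : 0 < q * a + q' + t * q := by nlinarith [ht.1]
      have e2 : (p + 1 / ((a:ℝ) + t) * p') / (q + 1 / ((a:ℝ) + t) * q') =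
          (p * a + p' + t * p) / (q * a + q' + t * q) := by
        rw [div_eq_div_iff hden.ne' hden2.ne']
        field_simp
        ring
      rw [Function.iterate_succ', Function.comp_apply, ← e2, e, gauss_branch j1 ht.1.le ht.2]
    · obtain ⟨k1, k2⟩ := iter_mem hα h (n + 1)
      rw [Function.iterate_succ', Function.comp_apply] at k1 k2 ⊢
      set t := gauss (gauss^[n] α) with ht
      have hat : 0 < (a:ℝ) + t := by linarith [k2.1]
      rw [j2] at h7
      have hden : 0 < q + 1 / ((a:ℝ) + t) * q' := by positivity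
      have hden2 : 0 < q * a + q' + t * q := by nlinarith [k2.1]
      have e2 : (p + 1 / ((a:ℝ) + t) * p') / (q + 1 / ((a:ℝ) + t) * q') =
          (p * a + p' + t * p) / (q * a + q' + t * q) := by
        rw [div_eq_div_iff hden.ne' hden2.ne']
        field_simp
        ring
      rw [← e2]
      exact h7

theorem mob_sub {p p' q q' s t : ℝ} (hs : 0 < q + s * q') (ht : 0 < q + t * q')
    (h : |p * q' - p' * q| = 1) :
    |(p + s * p') / (q + s * q') - (p + t * p') / (q + t * q')| =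
      |s - t| / ((q + s * q') * (q + t * q')) := by
  rw [div_sub_div _ _ hs.ne' ht.ne', abs_div, abs_of_pos (mul_pos hs ht)]
  congr 1
  rw [show (p + s * p') * (q + t * q') - (q + s * q') * (p + t * p') =
    (p * q' - p' * q) * (t - s) by ring, abs_mul, h, one_mul, abs_sub_comm]

/-- Cylinders around irrational points -/
theorem cyl (D : Set ℝ) (α : ℝ) (hα : Irrational α) (h : α ∈ Ioo (0:ℝ) 1) (n : ℕ) :
    ∃ w δ : ℝ, 0 < δ ∧ δ ≤ 1 / ((n : ℝ) + 1) ∧ α ∈ closedBall w δ ∧
      ∃ S : Set ℝ, S ⊆ closedBall w δ ∧ (∀ x ∈ S, gauss^[n] x ∈ D) ∧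
        volume (D ∩ Ioo 0 1) * volume (closedBall w δ) ≤ 4 * volume S := by
  obtain ⟨p, p', q, q', h1, h2, h3, h4, h5, h6, h7⟩ := branch α hα h n
  have hq : 0 < q := by linarith
  have hqq : 0 < q + q' := by linarith
  let ψ : ℝ → ℝ := fun t => (p + t * p') / (q + t * q')
  have hden : ∀ t : ℝ, 0 ≤ t → 0 < q + t * q' := fun t ht => by positivity
  have hψ : ∀ s t : ℝ, 0 ≤ s → 0 ≤ t → |ψ s - ψ t| = |s - t| / ((q + s * q') * (q + t * q')) :=
    fun s t hs ht => mob_sub (hden s hs) (hden t ht) h5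
  have h01 : |ψ 1 - ψ 0| = 1 / (q * (q + q')) := by
    rw [hψ 1 0 zero_le_one le_rfl]
    simp [mul_comm]
  have hin : ∀ t ∈ Icc (0:ℝ) 1, ψ t ∈ closedBall ((ψ 0 + ψ 1) / 2) (|ψ 1 - ψ 0| / 2) := by
    intro t ht
    have e1 : |ψ t - ψ 0| ≤ |ψ 1 - ψ 0| := by
      rw [h01, hψ t 0 ht.1 le_rfl, sub_zero, abs_of_nonneg ht.1, zero_mul, add_zero,
        div_le_div_iff₀ (mul_pos (hden t ht.1) hq) (by positivity)]
      have : t * (q + q') ≤ q + t * q' := by nlinarith [ht.2]
      nlinarith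
    have e2 : |ψ t - ψ 1| ≤ |ψ 1 - ψ 0| := by
      rw [h01, hψ t 1 ht.1 zero_le_one, one_mul, abs_sub_comm, abs_of_nonneg (by linarith [ht.2]),
        div_le_div_iff₀ (mul_pos (hden t ht.1) hqq) (by positivity)]
      have : (1 - t) * q ≤ q + t * q' := by nlinarith [ht.1, mul_nonneg ht.1 h2]
      nlinarith
    rw [mem_closedBall, Real.dist_eq, abs_le]
    rcases le_total (ψ 0) (ψ 1) with h8 | h8
    · rw [abs_of_nonneg (sub_nonneg.2 h8)] at e1 e2 ⊢
      rw [abs_le] at e1 e2
      constructor <;> linarith [e1.1, e1.2, e2.1, e2.2]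
    · rw [abs_of_nonpos (sub_nonpos.2 h8)] at e1 e2 ⊢
      rw [abs_le] at e1 e2
      constructor <;> linarith [e1.1, e1.2, e2.1, e2.2]
  refine ⟨(ψ 0 + ψ 1) / 2, |ψ 1 - ψ 0| / 2, ?_, ?_, ?_, ψ '' (D ∩ Ioo 0 1), ?_, ?_, ?_⟩
  · rw [h01]; positivity
  · rw [h01]
    have : 1 / (q * (q + q')) ≤ 1 / ((n : ℝ) + 1) := by
      apply one_div_le_one_div_of_le (by positivity)
      nlinarith
    have h9 : 0 < 1 / (q * (q + q')) := by positivity
    linarith
  · have := hin (gauss^[n] α) (Ioo_subset_Icc_self (iter_mem hα h n).2)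
    rwa [show ψ (gauss^[n] α) = α from h7] at this
  · rintro _ ⟨t, ht, rfl⟩
    exact hin t (Ioo_subset_Icc_self ht.2)
  · rintro _ ⟨t, ht, rfl⟩
    rw [show gauss^[n] (ψ t) = t from h6 t ht.2]
    exact ht.1
  · -- measure estimate
    have himg : gauss^[n] '' (ψ '' (D ∩ Ioo 0 1)) = D ∩ Ioo 0 1 := by
      rw [image_image]
      have : EqOn (fun t => gauss^[n] (ψ t)) id (D ∩ Ioo 0 1) := fun t ht => h6 t ht.2
      rw [this.image_eq, image_id]
    have hlip : LipschitzOnWith (Real.toNNReal (4 * q ^ 2)) (gauss^[n]) (ψ '' (D ∩ Ioo 0 1)) := by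
      apply LipschitzOnWith.of_dist_le_mul
      rintro _ ⟨s, hs, rfl⟩ _ ⟨t, ht, rfl⟩
      rw [Real.coe_toNNReal _ (by positivity), Real.dist_eq, Real.dist_eq,
        show gauss^[n] (ψ s) = s from h6 s hs.2, show gauss^[n] (ψ t) = t from h6 t ht.2,
        hψ s t hs.2.1.le ht.2.1.le]
      have d1 := hden s hs.2.1.le
      have d2 := hden t ht.2.1.le
      rw [mul_div_assoc', le_div_iff₀ (mul_pos d1 d2), mul_comm]
      apply mul_le_mul_of_nonneg_right _ (abs_nonneg _)
      have b1 : q + s * q' ≤ 2 * q := by nlinarith [hs.2.2, hs.2.1]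
      have b2 : q + t * q' ≤ 2 * q := by nlinarith [ht.2.2, ht.2.1]
      nlinarith
    have hH := hlip.hausdorffMeasure_image_le (d := 1) zero_le_one
    rw [himg, hausdorffMeasure_real, ENNReal.rpow_one] at hH
    have hv : volume (closedBall ((ψ 0 + ψ 1) / 2) (|ψ 1 - ψ 0| / 2)) =
        ENNReal.ofReal (1 / (q * (q + q'))) := by
      rw [Real.volume_closedBall, h01]
      congr 1
      ring
    rw [hv]
    calc volume (D ∩ Ioo 0 1) * ENNReal.ofReal (1 / (q * (q + q')))
        ≤ ((Real.toNNReal (4 * q ^ 2) : NNReal) : ℝ≥0∞) * volume (ψ '' (D ∩ Ioo 0 1)) *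
          ENNReal.ofReal (1 / (q * (q + q'))) := by gcongr
      _ = (ENNReal.ofReal (4 * q ^ 2) * ENNReal.ofReal (1 / (q * (q + q')))) *
          volume (ψ '' (D ∩ Ioo 0 1)) := by
        change ENNReal.ofReal (4 * q ^ 2) * _ * _ = _
        ring
      _ ≤ 4 * volume (ψ '' (D ∩ Ioo 0 1)) := by
        gcongr
        rw [← ENNReal.ofReal_mul (by positivity)]
        have : 4 * q ^ 2 * (1 / (q * (q + q'))) ≤ 4 := by
          rw [mul_one_div, div_le_iff₀ (by positivity)]
          nlinarith [mul_nonneg hq.le h2]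
        calc ENNReal.ofReal _ ≤ ENNReal.ofReal 4 := ENNReal.ofReal_le_ofReal this
          _ = 4 := by norm_num

theorem tErg : TErg := by
  intro D hD hD0
  let V : Set ℝ := {α | ∀ n, gauss^[n] α ∉ D}
  have hVm : MeasurableSet V := by
    have : V = ⋂ n, (gauss^[n] ⁻¹' D)ᶜ := by ext; simp [V]
    rw [this]
    exact MeasurableSet.iInter fun n => (measurable_gauss_iterate n hD).compl
  have hirr : ∀ᵐ α : ℝ, Irrational α := by
    have : (range ((↑) : ℚ → ℝ)).Countable := countable_range _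
    exact (this.ae_notMem volume)
  -- density
  have hdens := IsUnifLocDoublingMeasure.ae_tendsto_measure_inter_div (μ := (volume : Measure ℝ))
    (V ∩ Ioo 0 1) 1
  have hV0 : volume (V ∩ Ioo 0 1) = 0 := by
    rw [← Measure.restrict_eq_zero]
    have hmem : ∀ᵐ α ∂(volume.restrict (V ∩ Ioo 0 1)), α ∈ V ∩ Ioo (0:ℝ) 1 :=
      ae_restrict_mem (hVm.inter measurableSet_Ioo)
    have hall : ∀ᵐ α ∂(volume.restrict (V ∩ Ioo (0:ℝ) 1)), False := by
      filter_upwards [hdens, hmem, ae_restrict_of_ae hirr] with α h1 h2 h3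
      choose w δ c1 c2 c3 S c4 c5 c6 using cyl D α h3 h2.2
      have hδ : Tendsto δ atTop (𝓝[>] 0) := by
        rw [tendsto_nhdsWithin_iff]
        refine ⟨squeeze_zero (fun n => (c1 n).le) c2 tendsto_one_div_add_atTop_nhds_zero_nat,
          Eventually.of_forall c1⟩
      have hT := h1 w δ hδ (Eventually.of_forall fun n => by rw [one_mul]; exact c3 n)
      have hd1 : volume (D ∩ Ioo (0:ℝ) 1) ≤ 1 := by
        calc volume (D ∩ Ioo (0:ℝ) 1) ≤ volume (Ioo (0:ℝ) 1) := measure_mono inter_subset_right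
          _ = 1 := by simp
      have hb : ∀ n, volume (V ∩ Ioo 0 1 ∩ closedBall (w n) (δ n)) / volume (closedBall (w n) (δ n))
          ≤ 1 - volume (D ∩ Ioo (0:ℝ) 1) / 4 := by
        intro n
        have hB0 : volume (closedBall (w n) (δ n)) ≠ 0 := by
          rw [Real.volume_closedBall]
          simp [c1 n]
        have hBt : volume (closedBall (w n) (δ n)) ≠ ∞ := by
          rw [Real.volume_closedBall]
          exact ENNReal.ofReal_ne_top
        have hsub : S n ⊆ closedBall (w n) (δ n) \ V := fun x hx =>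
          ⟨c4 n hx, fun hV => hV n (c5 n x hx)⟩
        have e1 : volume (V ∩ Ioo 0 1 ∩ closedBall (w n) (δ n)) + volume (S n) ≤
            volume (closedBall (w n) (δ n)) := by
          rw [← measure_inter_add_sdiff (closedBall (w n) (δ n)) hVm]
          refine add_le_add (measure_mono ?_) (measure_mono hsub)
          exact fun x hx => ⟨hx.2, hx.1.1⟩
        have e2 : volume (D ∩ Ioo (0:ℝ) 1) / 4 * volume (closedBall (w n) (δ n)) ≤ volume (S n) := by
          have := c6 n
          rw [← ENNReal.mul_div_right_comm]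
          exact ENNReal.div_le_of_le_mul' this
        rw [ENNReal.div_le_iff hB0 hBt]
        rw [ENNReal.sub_mul (fun _ _ => hBt), one_mul]
        exact ENNReal.le_sub_of_add_le_right (ne_top_of_le_ne_top hBt (by
          calc volume (D ∩ Ioo (0:ℝ) 1) / 4 * volume (closedBall (w n) (δ n))
              ≤ volume (S n) := e2
            _ ≤ volume (closedBall (w n) (δ n)) := measure_mono (c4 n)))
          ((add_le_add le_rfl e2).trans e1)
      have hle := le_of_tendsto' hT hb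
      have : 1 - volume (D ∩ Ioo (0:ℝ) 1) / 4 < 1 := by
        apply ENNReal.sub_lt_self ENNReal.one_ne_top one_ne_zero
        simp [hD0]
      exact absurd hle (not_le.2 this)
    exact ae_eq_bot.1 (Filter.eventually_false_iff_eq_bot.1 hall)
  rw [ae_restrict_iff' measurableSet_Ioo, ae_iff]
  refine measure_mono_null ?_ hV0
  intro α hα
  simp only [mem_ofPred_eq, Classical.not_imp, not_exists] at hα
  exact ⟨hα.2, hα.1⟩

end Pool.Agent.W174.Stu
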